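import Mathlib
import Pool.Agent.L0h94.RZ.Defs

/-!
Project RZ, part STEER: one more prime reduces both coranks.
-/

set_option autoImplicit false

namespace Pool.Agent.L0h59.RZ

open Finset Pool.Agent.L0h94.RZ

/-- restriction of the kernel vectors to `S` -/
def resm (S : Finset ℕ) (e : ℕ → ℕ → ZMod 2) : KerE S e →ₗ[ZMod 2] (S → ZMod 2) where
  toFun v := fun p => v.1 p.1
  map_add' _ _ := rfl
  map_smul' _ _ := rfl

theorem resm_inj (S : Finset ℕ) (e : ℕ → ℕ → ZMod 2) : Function.Injective (resm S e) := by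
  intro v v' h
  apply Subtype.ext
  funext p
  by_cases hp : p ∈ S
  · exact congrFun h ⟨p, hp⟩
  · rw [v.2.1 p hp, v'.2.1 p hp]

instance finKer (S : Finset ℕ) (e : ℕ → ℕ → ZMod 2) : Module.Finite (ZMod 2) (KerE S e) :=
  Module.Finite.of_injective (resm S e) (resm_inj S e)

theorem zmod2 (a : ZMod 2) : a = 0 ∨ a = 1 := by
  fin_cases a
  · left; rfl
  · right; rfl

/-- the functional of `g` -/
def phi (S : Finset ℕ) (g : ℕ → ZMod 2) : (ℕ → ZMod 2) →ₗ[ZMod 2] ZMod 2 where
  toFun x := ∑ q ∈ S, g q * x q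
  map_add' x y := by
    simp only [Pi.add_apply, mul_add, sum_add_distrib]
  map_smul' c x := by
    simp only [Pi.smul_apply, smul_eq_mul, RingHom.id_apply, mul_sum]
    exact sum_congr rfl fun q _ => by ring

/-- codimension one -/
theorem finrank_inf (W : Submodule (ZMod 2) (ℕ → ZMod 2)) [Module.Finite (ZMod 2) W]
    (f : (ℕ → ZMod 2) →ₗ[ZMod 2] ZMod 2) {v : ℕ → ZMod 2} (hv : v ∈ W) (hf : f v = 1) :
    Module.finrank (ZMod 2) (W ⊓ LinearMap.ker f : Submodule (ZMod 2) (ℕ → ZMod 2)) =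
      Module.finrank (ZMod 2) W - 1 := by
  have h1 := LinearMap.finrank_range_add_finrank_ker (f.domRestrict W)
  have h2 : LinearMap.range (f.domRestrict W) = ⊤ := by
    rw [LinearMap.range_eq_top]
    intro c
    refine ⟨c • ⟨v, hv⟩, ?_⟩
    rw [map_smul, LinearMap.domRestrict_apply, hf, smul_eq_mul, mul_one]
  rw [h2, finrank_top, Module.finrank_self] at h1
  have h3 : Submodule.map W.subtype (LinearMap.ker (f.domRestrict W)) = W ⊓ LinearMap.ker f := by
    ext x
    simp only [Submodule.mem_map, LinearMap.mem_ker, Submodule.mem_inf, Submodule.subtype_apply]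
    constructor
    · rintro ⟨y, hy, rfl⟩
      exact ⟨y.2, by simpa using hy⟩
    · rintro ⟨hx, hx'⟩
      exact ⟨⟨x, hx⟩, by simpa using hx', rfl⟩
  have h4 : Module.finrank (ZMod 2)
      (Submodule.map W.subtype (LinearMap.ker (f.domRestrict W))) =
      Module.finrank (ZMod 2) (LinearMap.ker (f.domRestrict W)) :=
    (LinearEquiv.finrank_eq (Submodule.equivMapOfInjective W.subtype W.injective_subtype _)).symm
  rw [← h3, h4]
  omega

section border

variable {S : Finset ℕ} {e e' : ℕ → ℕ → ZMod 2} {l : ℕ} {g : ℕ → ZMod 2} {d : ZMod 2}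

/-- `e'` is the matrix `e` with one more row and column -/
structure Bord (S : Finset ℕ) (e e' : ℕ → ℕ → ZMod 2) (l : ℕ) (g : ℕ → ZMod 2) (d : ZMod 2) :
    Prop where
  hl : l ∉ S
  h1 : ∀ p ∈ S, ∀ q ∈ S, e' p q = e p q
  h2 : ∀ p ∈ S, e' p l = g p
  h3 : ∀ p ∈ S, e' l p = g p
  h4 : e' l l = d

theorem Bord.mem (h : Bord S e e' l g d) (x : ℕ → ZMod 2) :
    x ∈ KerE (insert l S) e' ↔ (∀ p, p ∉ insert l S → x p = 0) ∧
      (∀ p ∈ S, ∑ q ∈ S, e p q * x q + g p * x l = 0) ∧ ∑ q ∈ S, g q * x q + d * x l = 0 := by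
  have e1 : ∀ p ∈ S, ∑ q ∈ insert l S, e' p q * x q = ∑ q ∈ S, e p q * x q + g p * x l := by
    intro p hp
    rw [sum_insert h.hl, h.h2 p hp, add_comm]
    congr 1
    exact sum_congr rfl fun q hq => by rw [h.h1 p hp q hq]
  have e2 : ∑ q ∈ insert l S, e' l q * x q = ∑ q ∈ S, g q * x q + d * x l := by
    rw [sum_insert h.hl, h.h4, add_comm]
    congr 1
    exact sum_congr rfl fun q hq => by rw [h.h3 q hq]
  change ((∀ p, p ∉ insert l S → x p = 0) ∧ ∀ p ∈ insert l S, ∑ q ∈ insert l S, e' p q * x q = 0) ↔ _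
  constructor
  · rintro ⟨a1, a2⟩
    refine ⟨a1, ?_, ?_⟩
    · intro p hp
      rw [← e1 p hp]; exact a2 p (mem_insert_of_mem hp)
    · rw [← e2]; exact a2 l (mem_insert_self _ _)
  · rintro ⟨a1, a2, a3⟩
    refine ⟨a1, ?_⟩
    intro p hp
    rcases mem_insert.1 hp with rfl | hp
    · rw [e2]; exact a3
    · rw [e1 p hp]; exact a2 p hp

/-- the case of a kernel vector with `g · v = 1` -/
theorem Bord.drop (h : Bord S e e' l g d) (hs : ∀ p ∈ S, ∀ q ∈ S, e p q = e q p)
    {v : ℕ → ZMod 2} (hv : v ∈ KerE S e) (hg : ∑ q ∈ S, g q * v q = 1) :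
    Module.finrank (ZMod 2) (KerE (insert l S) e') = Module.finrank (ZMod 2) (KerE S e) - 1 := by
  have key : KerE (insert l S) e' = KerE S e ⊓ LinearMap.ker (phi S g) := by
    ext x
    rw [h.mem, Submodule.mem_inf, LinearMap.mem_ker]
    constructor
    · rintro ⟨a1, a2, a3⟩
      have hx : x l = 0 := by
        have s1 : ∑ p ∈ S, v p * (∑ q ∈ S, e p q * x q + g p * x l) = 0 :=
          sum_eq_zero fun p hp => by rw [a2 p hp, mul_zero]
        have s2 : ∑ p ∈ S, v p * (∑ q ∈ S, e p q * x q + g p * x l) =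
            ∑ q ∈ S, x q * (∑ p ∈ S, e q p * v p) + (∑ p ∈ S, g p * v p) * x l := by
          simp only [mul_add, sum_add_distrib, mul_sum]
          congr 1
          · rw [sum_comm]
            refine sum_congr rfl fun q hq => sum_congr rfl fun p hp => ?_
            rw [hs p hp q hq]; ring
          · rw [sum_mul]
            exact sum_congr rfl fun p _ => by ring
        have s3 : ∑ q ∈ S, x q * (∑ p ∈ S, e q p * v p) = 0 :=
          sum_eq_zero fun q hq => by rw [hv.2 q hq, mul_zero]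
        rw [s2, s3, zero_add, hg, one_mul] at s1
        exact s1
      refine ⟨⟨?_, ?_⟩, ?_⟩
      · intro p hp
        by_cases hpl : p = l
        · rw [hpl]; exact hx
        · exact a1 p (by simp [hpl, hp])
      · intro p hp
        have := a2 p hp
        rwa [hx, mul_zero, add_zero] at this
      · change ∑ q ∈ S, g q * x q = 0
        rwa [hx, mul_zero, add_zero] at a3
    · rintro ⟨⟨b1, b2⟩, b3⟩
      have hx : x l = 0 := b1 l h.hl
      have b3' : ∑ q ∈ S, g q * x q = 0 := b3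
      refine ⟨?_, ?_, ?_⟩
      · intro p hp
        exact b1 p fun hp' => hp (mem_insert_of_mem hp')
      · intro p hp
        rw [hx, mul_zero, add_zero]; exact b2 p hp
      · rw [hx, mul_zero, add_zero]; exact b3'
  rw [key]
  exact finrank_inf (KerE S e) (phi S g) hv hg

/-- the matrix as a linear map -/
def mat (S : Finset ℕ) (e : ℕ → ℕ → ZMod 2) : (S → ZMod 2) →ₗ[ZMod 2] (S → ZMod 2) where
  toFun x := fun p => ∑ q : S, e p.1 q.1 * x q
  map_add' x y := by
    funext p
    simp only [Pi.add_apply, mul_add, sum_add_distrib]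
  map_smul' c x := by
    funext p
    simp only [Pi.smul_apply, smul_eq_mul, RingHom.id_apply, mul_sum]
    exact sum_congr rfl fun q _ => by ring

/-- extension by zero -/
def ext0 (S : Finset ℕ) (x : S → ZMod 2) : ℕ → ZMod 2 := fun p => if h : p ∈ S then x ⟨p, h⟩ else 0

theorem ext0_sum (x : S → ZMod 2) (a : ℕ → ZMod 2) :
    ∑ q ∈ S, a q * ext0 S x q = ∑ q : S, a q.1 * x q := by
  rw [← Finset.sum_coe_sort S (fun q => a q * ext0 S x q)]
  refine sum_congr rfl fun q _ => ?_
  rw [ext0, dif_pos q.2]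

/-- a nonsingular matrix: a solution of `M x = g` -/
theorem solve (h0 : Module.finrank (ZMod 2) (KerE S e) = 0) (g : ℕ → ZMod 2) :
    ∃ x0 : ℕ → ZMod 2, (∀ p ∈ S, ∑ q ∈ S, e p q * x0 q = g p) := by
  have hinj : Function.Injective (mat S e) := by
    rw [← LinearMap.ker_eq_bot, LinearMap.ker_eq_bot']
    intro x hx
    have hmem : ext0 S x ∈ KerE S e := by
      refine ⟨fun p hp => by rw [ext0, dif_neg hp], ?_⟩
      intro p hp
      rw [ext0_sum]
      exact congrFun hx ⟨p, hp⟩
    have hb : KerE S e = ⊥ := by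
      rwa [Submodule.finrank_eq_zero] at h0
    rw [hb, Submodule.mem_bot] at hmem
    funext p
    have := congrFun hmem p.1
    rwa [ext0, dif_pos p.2] at this
  have hsur := (LinearMap.injective_iff_surjective).1 hinj
  obtain ⟨x, hx⟩ := hsur (fun p => g p.1)
  refine ⟨ext0 S x, ?_⟩
  intro p hp
  rw [ext0_sum]
  exact congrFun hx ⟨p, hp⟩

/-- the nonsingular case -/
theorem Bord.nons (h : Bord S e e' l g d) (hs : ∀ p ∈ S, ∀ q ∈ S, e p q = e q p)
    (h0 : Module.finrank (ZMod 2) (KerE S e) = 0) {x0 : ℕ → ZMod 2}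
    (hx0 : ∀ p ∈ S, ∑ q ∈ S, e p q * x0 q = g p) (hd : d = ∑ q ∈ S, g q * x0 q + 1) :
    Module.finrank (ZMod 2) (KerE (insert l S) e') = 0 := by
  have hb : KerE S e = ⊥ := by
    rwa [Submodule.finrank_eq_zero] at h0
  rw [Submodule.finrank_eq_zero, eq_bot_iff]
  intro x hx
  rw [h.mem] at hx
  obtain ⟨a1, a2, a3⟩ := hx
  -- g.x + (g.x0) x_l = 0
  have s1 : ∑ p ∈ S, x0 p * (∑ q ∈ S, e p q * x q + g p * x l) = 0 :=
    sum_eq_zero fun p hp => by rw [a2 p hp, mul_zero]
  have s2 : ∑ p ∈ S, x0 p * (∑ q ∈ S, e p q * x q + g p * x l) =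
      ∑ q ∈ S, x q * (∑ p ∈ S, e q p * x0 p) + (∑ p ∈ S, g p * x0 p) * x l := by
    simp only [mul_add, sum_add_distrib, mul_sum]
    congr 1
    · rw [sum_comm]
      refine sum_congr rfl fun q hq => sum_congr rfl fun p hp => ?_
      rw [hs p hp q hq]; ring
    · rw [sum_mul]
      exact sum_congr rfl fun p _ => by ring
  have s3 : ∑ q ∈ S, x q * (∑ p ∈ S, e q p * x0 p) = ∑ q ∈ S, g q * x q :=
    sum_congr rfl fun q hq => by rw [hx0 q hq]; ring
  rw [s2, s3] at s1
  have hxl : x l = 0 := by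
    rw [hd] at a3
    have : ∑ q ∈ S, g q * x q + (∑ q ∈ S, g q * x0 q + 1) * x l =
        (∑ q ∈ S, g q * x q + (∑ q ∈ S, g q * x0 q) * x l) + x l := by ring
    rw [this, s1, zero_add] at a3
    exact a3
  rw [Submodule.mem_bot]
  have hmem : x ∈ KerE S e := by
    refine ⟨?_, ?_⟩
    · intro p hp
      by_cases hpl : p = l
      · rw [hpl]; exact hxl
      · exact a1 p (by simp [hpl, hp])
    · intro p hp
      have := a2 p hp
      rwa [hxl, mul_zero, add_zero] at this
  rwa [hb, Submodule.mem_bot] at hmem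

end border

theorem en_symm (o : Bool) (cl : ℕ → Fin 3) (τ : ℕ → ZMod 2) (p q : ℕ) :
    en o cl τ p q = en o cl τ q p := by
  unfold en
  by_cases h : p = q
  · subst h; rfl
  · rw [if_neg h, if_neg (Ne.symm h)]
    by_cases hc : cl p = cl q
    · rw [if_pos hc, if_pos hc.symm, hc]
      split_ifs
      · ring
      · rfl
    · rw [if_neg hc, if_neg (Ne.symm hc)]
      have hx : (decide (cl q < cl p)) = !(decide (cl p < cl q)) := by
        rcases lt_trichotomy (cl p) (cl q) with h1 | h1 | h1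
        · simp [h1, h1.le]
        · exact absurd h1 hc
        · simp [h1, h1.le]
      rw [hx]
      cases o <;> cases decide (cl p < cl q) <;> rfl

theorem lam_one {l : ℕ} (hl : l % 4 = 1) : lam l = 0 := by
  unfold lam nr
  have hodd : Odd l := by rw [Nat.odd_iff]; omega
  have h1 : jacobiSym (-1) l = 1 := by
    rw [jacobiSym.at_neg_one hodd, ZMod.χ₄_nat_one_mod_four hl]
  rw [h1]
  rw [if_neg (by decide)]

theorem nr_symm {l p : ℕ} (hl : l % 4 = 1) (hp : p.Prime) (hp2 : p ≠ 2) :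
    nr l (p : ℤ) = nr p (l : ℤ) := by
  unfold nr
  have hodd : Odd p := hp.odd_of_ne_two hp2
  rw [jacobiSym.quadratic_reciprocity_one_mod_four hl hodd]

theorem en_bord (o : Bool) {S : Finset ℕ} (cl : ℕ → Fin 3) (τ : ℕ → ZMod 2)
    (hS : ∀ p ∈ S, p.Prime ∧ p ≠ 2) {l : ℕ} (hl : l ∉ S) (hl8 : l % 8 = 1) (χ : Fin 3)
    (d : ZMod 2) : Bord S (en o cl τ) (en o (Function.update cl l χ) (Function.update τ l d)) l
      (fun p => if cl p = χ then 0 else nr p l) d := by
  have hne : ∀ p ∈ S, p ≠ l := fun p hp h => hl (h ▸ hp)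
  have hl4 : l % 4 = 1 := by omega
  have hlam := lam_one hl4
  have h2 : ∀ p ∈ S, en o (Function.update cl l χ) (Function.update τ l d) p l =
      if cl p = χ then 0 else nr p l := by
    intro p hp
    have hpl := hne p hp
    unfold en
    rw [if_neg hpl, Function.update_self, Function.update_of_ne hpl]
    by_cases hc : cl p = χ
    · rw [if_pos hc, if_pos hc, hlam, mul_zero, ite_self]
    · rw [if_neg hc, if_neg hc, nr_symm hl4 (hS p hp).1 (hS p hp).2, ite_self]
  refine ⟨hl, ?_, h2, ?_, ?_⟩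
  · intro p hp q hq
    unfold en
    rw [Function.update_of_ne (hne p hp), Function.update_of_ne (hne q hq),
      Function.update_of_ne (hne p hp)]
  · intro p hp
    rw [en_symm]; exact h2 p hp
  · unfold en
    rw [if_pos rfl, Function.update_self, hlam, ite_self, add_zero]

theorem exists_supp {S : Finset ℕ} {e : ℕ → ℕ → ZMod 2}
    (h : Module.finrank (ZMod 2) (KerE S e) ≠ 0) : ∃ v ∈ KerE S e, ∃ p ∈ S, v p = 1 := by
  have hne : KerE S e ≠ ⊥ := by
    intro hb
    rw [← Submodule.finrank_eq_zero] at hb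
    exact h hb
  obtain ⟨v, hv, hv0⟩ := (Submodule.ne_bot_iff _).1 hne
  refine ⟨v, hv, ?_⟩
  by_contra hcon
  push Not at hcon
  apply hv0
  funext p
  by_cases hp : p ∈ S
  · rcases zmod2 (v p) with h1 | h1
    · exact h1
    · exact absurd h1 (hcon p hp)
  · exact hv.1 p hp

theorem sum_filter_eq {S : Finset ℕ} (cl : ℕ → Fin 3) (χ : Fin 3) (a v : ℕ → ZMod 2) :
    ∑ q ∈ S, (if cl q = χ then 0 else a q) * v q =
      ∑ q ∈ S.filter (fun q => v q = 1 ∧ cl q ≠ χ), a q := by
  rw [sum_filter]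
  refine sum_congr rfl fun q _ => ?_
  by_cases hc : cl q = χ
  · simp [hc]
  · rcases zmod2 (v q) with h1 | h1
    · rw [h1]; simp
    · rw [h1]; simp [hc]

theorem steer : S_STEER := by
  intro S cl τ hS hnot
  -- vectors
  have hex : ∀ o, cork o S cl τ ≠ 0 → ∃ v ∈ KerE S (en o cl τ), ∃ p ∈ S, v p = 1 :=
    fun o h => exists_supp h
  classical
  -- the data for each `o`
  have hdat : ∀ o, ∃ v : ℕ → ZMod 2, ∃ p : ℕ, cork o S cl τ ≠ 0 →
      v ∈ KerE S (en o cl τ) ∧ p ∈ S ∧ v p = 1 := by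
    intro o
    by_cases h : cork o S cl τ = 0
    · exact ⟨0, 0, fun h' => absurd h h'⟩
    · obtain ⟨v, hv, p, hp, hvp⟩ := hex o h
      exact ⟨v, p, fun _ => ⟨hv, hp, hvp⟩⟩
  choose v pt hdat using hdat
  obtain ⟨χ, hχ1, hχ2⟩ : ∃ χ : Fin 3, cl (pt false) ≠ χ ∧ cl (pt true) ≠ χ := by
    generalize cl (pt false) = a
    generalize cl (pt true) = b
    revert a b
    decide
  have hχ : ∀ o, cl (pt o) ≠ χ := by
    intro o; cases o
    · exact hχ1
    · exact hχ2
  set T0 : Bool → Finset ℕ := fun o => S.filter (fun q => v o q = 1 ∧ cl q ≠ χ) with hT0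
  have hT0ne : ∀ o, cork o S cl τ ≠ 0 → (T0 o).Nonempty := by
    intro o h
    obtain ⟨-, h2, h3⟩ := hdat o h
    exact ⟨pt o, by rw [hT0]; simp only [mem_filter]; exact ⟨h2, h3, hχ o⟩⟩
  refine ⟨χ, fun o => if cork o S cl τ = 0 then T0 (!o) else T0 o, ?_, ?_⟩
  · intro o
    by_cases h : cork o S cl τ = 0
    · simp only [h, if_true]
      refine ⟨hT0ne _ ?_, filter_subset _ _⟩
      intro h'
      apply hnot
      cases o
      · exact ⟨h, h'⟩
      · exact ⟨h', h⟩
    · simp only [h, if_false]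
      exact ⟨hT0ne _ h, filter_subset _ _⟩
  · intro l _ hlS hl8 hsum
    -- choice of d
    have hg : ∀ o, cork o S cl τ ≠ 0 →
        ∑ q ∈ S, (if cl q = χ then 0 else nr q l) * v o q = 1 := by
      intro o h
      rw [sum_filter_eq cl χ (fun q => nr q l) (v o)]
      have := hsum o
      simp only [h, if_false] at this
      exact this
    have hdrop : ∀ o, cork o S cl τ ≠ 0 → ∀ d : ZMod 2,
        cork o (insert l S) (Function.update cl l χ) (Function.update τ l d) =
          cork o S cl τ - 1 := by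
      intro o h d
      exact (en_bord o cl τ hS hlS hl8 χ d).drop (fun p _ q _ => en_symm o cl τ p q)
        (hdat o h).1 (hg o h)
    by_cases hz : ∃ o, cork o S cl τ = 0
    · obtain ⟨o, ho⟩ := hz
      obtain ⟨x0, hx0⟩ := solve ho (fun q => if cl q = χ then 0 else nr q l)
      refine ⟨∑ q ∈ S, (if cl q = χ then 0 else nr q l) * x0 q + 1, ?_⟩
      intro o'
      by_cases ho' : cork o' S cl τ = 0
      · rw [ho']
        exact (en_bord o' cl τ hS hlS hl8 χ _).nons (fun p _ q _ => en_symm o' cl τ p q) ho'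
          (by
            have : o' = o := by
              by_contra hne
              apply hnot
              cases o <;> cases o' <;> simp_all
            rw [this]; exact hx0) rfl
      · exact hdrop o' ho' _
    · push Not at hz
      exact ⟨0, fun o => hdrop o (hz o) 0⟩

end Pool.Agent.L0h59.RZ
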